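import Pool.Agent.W221.NS.Stm

/-!
Local Sobolev inequality.
-/

set_option autoImplicit false

open MeasureTheory Set Filter Topology Metric
open scoped ContDiff ENNReal NNReal

namespace Pool.Agent.W440.MD

open H459R3.NS W221.NS

theorem fderiv_norm_le {f : V → ℝ} (x : V) : ‖fderiv ℝ f x‖ ≤ ∑ j, |pd j f x| := by
  refine ContinuousLinearMap.opNorm_le_bound _ (Finset.sum_nonneg fun _ _ => abs_nonneg _)
    fun v => ?_
  have e : fderiv ℝ f x v = ∑ j, v j * pd j f x := by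
    conv_lhs => rw [← Finset.univ_sum_single v]
    rw [map_sum]
    refine Finset.sum_congr rfl fun j _ => ?_
    have : (Pi.single j (v j) : V) = v j • Pi.single j 1 := by
      rw [← Pi.single_smul]; simp
    rw [this, map_smul]
    rfl
  rw [e, Real.norm_eq_abs, Finset.sum_mul]
  refine (Finset.abs_sum_le_sum_abs _ _).trans (Finset.sum_le_sum fun j _ => ?_)
  rw [abs_mul, mul_comm]
  refine mul_le_mul_of_nonneg_left ?_ (abs_nonneg _)
  rw [← Real.norm_eq_abs]
  exact norm_le_pi_norm v j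

theorem cont_pd {f : V → ℝ} (hf : ContDiff ℝ ∞ f) (j : Fin 3) : Continuous (pd j f) := by
  have h1 : Continuous (fderiv ℝ f) := hf.continuous_fderiv (by simp)
  exact h1.clm_apply continuous_const

theorem int_ball {F : V → ℝ} (hF : Continuous F) (a : V) (r : ℝ) : IntegrableOn F (ball a r) :=
  (hF.continuousOn.integrableOn_compact (isCompact_closedBall a r)).mono_set ball_subset_closedBall

/-- the scalar inequality -/
theorem scalar : ∃ K : ℝ, 0 ≤ K ∧ ∀ f : V → ℝ, ContDiff ℝ ∞ f → ∀ (a : V) (ρ : ℝ), 0 < ρ →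
    ∫ x in ball a ρ, f x ^ 6 ≤
      K * (∫ x in ball a (2 * ρ), ((∑ j, pd j f x ^ 2) + (ρ ^ 2)⁻¹ * f x ^ 2)) ^ 3 := by
  obtain ⟨M0, hM0⟩ : ∃ M, ∀ x, ‖fderiv ℝ bmp x‖ ≤ M := by
    have h1 : HasCompactSupport (fderiv ℝ (bmp : V → ℝ)) := bmp.hasCompactSupport.fderiv (𝕜 := ℝ)
    have h2 : Continuous (fderiv ℝ (bmp : V → ℝ)) :=
      (bmp.contDiff (n := 1)).continuous_fderiv one_ne_zero
    exact h1.exists_bound_of_continuous h2
  set M : ℝ := max M0 1 with hM
  have hM1 : 1 ≤ M := le_max_right _ _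
  have hMd : ∀ x, ‖fderiv ℝ bmp x‖ ≤ M := fun x => (hM0 x).trans (le_max_left _ _)
  set K0 : ℝ≥0 := SNormLESNormFDerivOfEqConst ℝ (volume : Measure V) 2 with hK0
  refine ⟨(K0 : ℝ) ^ 6 * (4 * M ^ 2) ^ 3, by positivity, fun f hf a ρ hρ => ?_⟩
  set χ : V → ℝ := fun x => bmp ((2 * ρ)⁻¹ • (x - a)) with hχ
  have hχ0 : ∀ x, 0 ≤ χ x := fun x => bmp.nonneg
  have hχ1 : ∀ x, χ x ≤ 1 := fun x => bmp.le_one
  have hχs : ContDiff ℝ 1 χ := by
    have h1 : ContDiff ℝ 1 (bmp : V → ℝ) := bmp.contDiff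
    exact h1.comp (by fun_prop)
  have hχd : ∀ x, HasFDerivAt χ ((2 * ρ)⁻¹ • fderiv ℝ bmp ((2 * ρ)⁻¹ • (x - a))) x := by
    intro x
    have h1 : HasFDerivAt (fun x : V => (2 * ρ)⁻¹ • (x - a))
        ((2 * ρ)⁻¹ • ContinuousLinearMap.id ℝ V) x := by
      have h0 : HasFDerivAt (fun x : V => x - a) (ContinuousLinearMap.id ℝ V) x :=
        (hasFDerivAt_id x).sub_const a
      exact h0.const_smul ((2 * ρ)⁻¹)
    have h2 := (((bmp.contDiff (n := 1)).differentiable one_ne_zero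
      ((2 * ρ)⁻¹ • (x - a))).hasFDerivAt).comp x h1
    have h3 : (fderiv ℝ bmp ((2 * ρ)⁻¹ • (x - a))).comp ((2 * ρ)⁻¹ • ContinuousLinearMap.id ℝ V) =
        (2 * ρ)⁻¹ • fderiv ℝ bmp ((2 * ρ)⁻¹ • (x - a)) := by
      rw [ContinuousLinearMap.comp_smul, ContinuousLinearMap.comp_id]
    rw [h3] at h2
    exact h2
  have hnorm : ∀ x : V, ‖(2 * ρ)⁻¹ • (x - a)‖ = (2 * ρ)⁻¹ * dist x a := by
    intro x
    rw [norm_smul, Real.norm_eq_abs, abs_of_pos (by positivity), dist_eq_norm]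
  have hχin : ∀ x ∈ ball a ρ, χ x = 1 := by
    intro x hx
    refine bmp.one_of_mem_closedBall ?_
    rw [mem_closedBall, dist_zero_right, hnorm]
    rw [mem_ball] at hx
    change (2 * ρ)⁻¹ * dist x a ≤ 1 / 2
    rw [inv_mul_le_iff₀ (by positivity)]
    linarith
  have hχout : ∀ x, x ∉ ball a (2 * ρ) → χ x = 0 := by
    intro x hx
    refine bmp.zero_of_le_dist ?_
    rw [dist_zero_right, hnorm]
    rw [mem_ball, not_lt] at hx
    change 1 ≤ (2 * ρ)⁻¹ * dist x a
    rw [le_inv_mul_iff₀ (by positivity)]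
    linarith
  have hχd0 : ∀ x, x ∉ ball a (2 * ρ) → fderiv ℝ χ x = 0 := by
    intro x hx
    have h1 : IsLocalMin χ x := by
      refine Eventually.of_forall fun y => ?_
      rw [hχout x hx]
      exact hχ0 y
    exact h1.fderiv_eq_zero
  set g : V → ℝ := fun x => χ x * f x with hg
  have hf1 : ContDiff ℝ 1 f := hf.of_le (by norm_cast)
  have hgs : ContDiff ℝ 1 g := hχs.mul hf1
  have hgc : HasCompactSupport g := by
    refine HasCompactSupport.of_support_subset_isCompact (isCompact_closedBall a (2 * ρ)) ?_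
    intro x hx
    by_contra h
    apply hx
    simp only [hg]
    rw [hχout x fun h' => h (ball_subset_closedBall h'), zero_mul]
  have hfin : Module.finrank ℝ V = 3 := by simp
  have h1 : eLpNorm g ((6 : ℝ≥0) : ℝ≥0∞) volume
      ≤ K0 * eLpNorm (fderiv ℝ g) ((2 : ℝ≥0) : ℝ≥0∞) volume :=
    eLpNorm_le_eLpNorm_fderiv_of_eq (volume : Measure V) (p := 2) (p' := 6) hgs hgc
      (by norm_num) (by rw [hfin]; norm_num) (by rw [hfin]; norm_num)
  rw [eLpNorm_eq_lintegral_rpow_enorm_toReal (by norm_num) (by norm_num),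
    eLpNorm_eq_lintegral_rpow_enorm_toReal (by norm_num) (by norm_num)] at h1
  have e6 : ((6 : ℝ≥0) : ℝ≥0∞).toReal = 6 := by norm_num
  have e2 : ((2 : ℝ≥0) : ℝ≥0∞).toReal = 2 := by norm_num
  rw [e6, e2] at h1
  -- the sixth power
  have h2 : ∫⁻ x, ‖g x‖ₑ ^ (6 : ℝ) ≤ K0 ^ 6 * (∫⁻ x, ‖fderiv ℝ g x‖ₑ ^ (2 : ℝ)) ^ 3 := by
    have h3 := pow_le_pow_left₀ (by positivity) h1 6
    rw [mul_pow, ← ENNReal.rpow_natCast, ← ENNReal.rpow_mul, ← ENNReal.rpow_natCast (_ ^ (1 / (2 : ℝ))),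
      ← ENNReal.rpow_mul] at h3
    norm_num at h3
    exact_mod_cast h3
  set Φ : V → ℝ := fun x => (∑ j, pd j f x ^ 2) + (ρ ^ 2)⁻¹ * f x ^ 2 with hΦ
  have hΦc : Continuous Φ := by
    have h3 : ∀ j, Continuous (pd j f) := fun j => cont_pd hf j
    have h4 := hf.continuous
    fun_prop
  have hΦ0 : ∀ x, 0 ≤ Φ x := fun x => by positivity
  have h3 : ∀ x, ‖fderiv ℝ g x‖ ^ 2 ≤ (ball a (2 * ρ)).indicator (fun x => 4 * M ^ 2 * Φ x) x := by
    intro x
    have hd : HasFDerivAt g (χ x • fderiv ℝ f x + f x • fderiv ℝ χ x) x :=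
      ((hχs.differentiable one_ne_zero x).hasFDerivAt).mul
        (hf1.differentiable one_ne_zero x).hasFDerivAt
    rw [hd.fderiv]
    by_cases hx : x ∈ ball a (2 * ρ)
    · rw [indicator_of_mem hx]
      have a1 : ‖χ x • fderiv ℝ f x + f x • fderiv ℝ χ x‖ ≤
          M * ((∑ j, |pd j f x|) + ρ⁻¹ * |f x|) := by
        refine (norm_add_le _ _).trans ?_
        rw [norm_smul, norm_smul, Real.norm_eq_abs, Real.norm_eq_abs, abs_of_nonneg (hχ0 x)]
        have b1 : χ x * ‖fderiv ℝ f x‖ ≤ M * ∑ j, |pd j f x| :=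
          mul_le_mul ((hχ1 x).trans hM1) (fderiv_norm_le x) (norm_nonneg _) (by positivity)
        have b0 : ‖fderiv ℝ χ x‖ ≤ ρ⁻¹ * M := by
          rw [(hχd x).fderiv, norm_smul, Real.norm_eq_abs, abs_of_pos (by positivity)]
          have c1 : (2 * ρ)⁻¹ ≤ ρ⁻¹ := by
            apply inv_anti₀ hρ
            linarith
          exact mul_le_mul c1 (hMd _) (norm_nonneg _) (by positivity)
        have b2 : |f x| * ‖fderiv ℝ χ x‖ ≤ |f x| * (ρ⁻¹ * M) :=
          mul_le_mul_of_nonneg_left b0 (abs_nonneg _)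
        calc χ x * ‖fderiv ℝ f x‖ + |f x| * ‖fderiv ℝ χ x‖ ≤
            M * ∑ j, |pd j f x| + |f x| * (ρ⁻¹ * M) := add_le_add b1 b2
          _ = _ := by ring
      calc _ ≤ (M * ((∑ j, |pd j f x|) + ρ⁻¹ * |f x|)) ^ 2 :=
            pow_le_pow_left₀ (norm_nonneg _) a1 2
        _ ≤ 4 * M ^ 2 * Φ x := by
          rw [mul_pow]
          have b3 : ((∑ j, |pd j f x|) + ρ⁻¹ * |f x|) ^ 2 ≤ 4 * Φ x := by
            simp only [hΦ, Fin.sum_univ_three]
            have b4 : (ρ ^ 2)⁻¹ * f x ^ 2 = (ρ⁻¹ * |f x|) ^ 2 := by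
              rw [mul_pow, sq_abs, inv_pow]
            rw [b4, ← sq_abs (pd 0 f x), ← sq_abs (pd 1 f x), ← sq_abs (pd 2 f x)]
            nlinarith [sq_nonneg (|pd 0 f x| - |pd 1 f x|), sq_nonneg (|pd 0 f x| - |pd 2 f x|),
              sq_nonneg (|pd 0 f x| - ρ⁻¹ * |f x|), sq_nonneg (|pd 1 f x| - |pd 2 f x|),
              sq_nonneg (|pd 1 f x| - ρ⁻¹ * |f x|), sq_nonneg (|pd 2 f x| - ρ⁻¹ * |f x|)]
          have b4 := mul_le_mul_of_nonneg_left b3 (sq_nonneg M)
          linarith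
    · rw [indicator_of_notMem hx, hχout x hx, hχd0 x hx]
      simp
  have h5 : ∫⁻ x, ‖fderiv ℝ g x‖ₑ ^ (2 : ℝ) ≤
      ENNReal.ofReal (4 * M ^ 2 * ∫ x in ball a (2 * ρ), Φ x) := by
    calc ∫⁻ x, ‖fderiv ℝ g x‖ₑ ^ (2 : ℝ)
        ≤ ∫⁻ x, (ball a (2 * ρ)).indicator (fun x => ENNReal.ofReal (4 * M ^ 2 * Φ x)) x := by
          refine lintegral_mono fun x => ?_
          have e2 : ‖fderiv ℝ g x‖ₑ ^ (2 : ℝ) = ENNReal.ofReal (‖fderiv ℝ g x‖ ^ 2) := by
            rw [← ofReal_norm, ENNReal.ofReal_rpow_of_nonneg (norm_nonneg _)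
              (by norm_num)]
            norm_cast
          rw [e2]
          refine (ENNReal.ofReal_le_ofReal (h3 x)).trans (le_of_eq ?_)
          by_cases hx : x ∈ ball a (2 * ρ)
          · rw [indicator_of_mem hx, indicator_of_mem hx]
          · rw [indicator_of_notMem hx, indicator_of_notMem hx, ENNReal.ofReal_zero]
      _ = ∫⁻ x in ball a (2 * ρ), ENNReal.ofReal (4 * M ^ 2 * Φ x) :=
          lintegral_indicator measurableSet_ball _
      _ = ENNReal.ofReal (∫ x in ball a (2 * ρ), 4 * M ^ 2 * Φ x) := by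
          rw [ofReal_integral_eq_lintegral_ofReal (f := fun x => 4 * M ^ 2 * Φ x)
            (int_ball (F := fun x => 4 * M ^ 2 * Φ x) (continuous_const.mul hΦc) a (2 * ρ))
            (Eventually.of_forall fun x => mul_nonneg (by positivity) (hΦ0 x))]
      _ = _ := by rw [integral_const_mul]
  have hI : 0 ≤ ∫ x in ball a (2 * ρ), Φ x := integral_nonneg hΦ0
  have h6 : ENNReal.ofReal (∫ x in ball a ρ, f x ^ 6) ≤ ∫⁻ x, ‖g x‖ₑ ^ (6 : ℝ) := by
    rw [ofReal_integral_eq_lintegral_ofReal (f := fun x => f x ^ 6)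
      (int_ball (F := fun x => f x ^ 6) (hf.continuous.pow 6) a ρ)
      (Eventually.of_forall fun x => by positivity)]
    calc ∫⁻ x in ball a ρ, ENNReal.ofReal (f x ^ 6) = ∫⁻ x in ball a ρ, ‖g x‖ₑ ^ (6 : ℝ) := by
          refine setLIntegral_congr_fun measurableSet_ball fun x hx => ?_
          have e1 : g x = f x := by
            simp only [hg]
            rw [hχin x hx, one_mul]
          have e2 : f x ^ 6 = ‖f x‖ ^ 6 := by
            rw [Real.norm_eq_abs, Even.pow_abs (by decide)]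
          rw [e1, ← ofReal_norm, ENNReal.ofReal_rpow_of_nonneg (norm_nonneg _)
            (by norm_num), e2]
          norm_cast
      _ ≤ ∫⁻ x, ‖g x‖ₑ ^ (6 : ℝ) := setLIntegral_le_lintegral _ _
  have h7 : ENNReal.ofReal (∫ x in ball a ρ, f x ^ 6) ≤
      ENNReal.ofReal ((K0 : ℝ) ^ 6 * (4 * M ^ 2) ^ 3 * (∫ x in ball a (2 * ρ), Φ x) ^ 3) := by
    calc ENNReal.ofReal (∫ x in ball a ρ, f x ^ 6) ≤ ∫⁻ x, ‖g x‖ₑ ^ (6 : ℝ) := h6
      _ ≤ K0 ^ 6 * (∫⁻ x, ‖fderiv ℝ g x‖ₑ ^ (2 : ℝ)) ^ 3 := h2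
      _ ≤ K0 ^ 6 * (ENNReal.ofReal (4 * M ^ 2 * ∫ x in ball a (2 * ρ), Φ x)) ^ 3 := by gcongr
      _ = _ := by
          rw [← ENNReal.ofReal_pow (by positivity), ← ENNReal.ofReal_coe_nnreal,
            ← ENNReal.ofReal_pow (by positivity), ← ENNReal.ofReal_mul (by positivity)]
          congr 1
          ring
  exact (ENNReal.ofReal_le_ofReal_iff (by positivity)).mp h7

theorem t_SOB : S_SOB := by
  obtain ⟨K, hK, hS⟩ := scalar
  refine ⟨27 * K + 1, by positivity, fun v hv a ρ hρ => ?_⟩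
  have hvi : ∀ i, ContDiff ℝ ∞ fun y => v y i := fun i => contDiff_pi.mp hv i
  set Φ : Fin 3 → V → ℝ := fun i x => (∑ j, pd j (fun y => v y i) x ^ 2) +
    (ρ ^ 2)⁻¹ * v x i ^ 2 with hΦ
  have hΦc : ∀ i, Continuous (Φ i) := by
    intro i
    have h3 : ∀ j, Continuous (pd j fun y => v y i) := fun j => cont_pd (hvi i) j
    have h4 : Continuous fun y => v y i := (hvi i).continuous
    fun_prop
  have hΦ0 : ∀ i x, 0 ≤ Φ i x := fun i x => by positivity
  set I : Fin 3 → ℝ := fun i => ∫ x in ball a (2 * ρ), Φ i x with hI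
  have hI0 : ∀ i, 0 ≤ I i := fun i => integral_nonneg (hΦ0 i)
  have hsum : B2 a (2 * ρ) v + (ρ ^ 2)⁻¹ * A2 a (2 * ρ) v = ∑ i, I i := by
    unfold B2 A2
    rw [← integral_const_mul, ← integral_add, ← integral_finsetSum]
    · refine integral_congr_ae (Eventually.of_forall fun x => ?_)
      simp only [gsq, nsq, hΦ]
      rw [Finset.sum_add_distrib, Finset.mul_sum]
    · intro i _
      exact int_ball (hΦc i) a (2 * ρ)
    · refine int_ball ?_ a (2 * ρ)
      unfold gsq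
      exact continuous_finsetSum _ fun i _ => continuous_finsetSum _ fun j _ =>
        (cont_pd (hvi i) j).pow 2
    · refine (int_ball ?_ a (2 * ρ)).const_mul _
      unfold nsq
      exact continuous_finsetSum _ fun i _ => ((hvi i).continuous).pow 2
  have hL : L6 a ρ v ≤ ∑ i, 9 * ∫ x in ball a ρ, v x i ^ 6 := by
    unfold L6
    simp_rw [← integral_const_mul]
    rw [← integral_finsetSum]
    · refine integral_mono_of_nonneg (Eventually.of_forall fun x => ?_) ?_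
        (Eventually.of_forall fun x => ?_)
      · simp only [nsq]
        positivity
      · refine integrable_finsetSum _ fun i _ => ?_
        exact int_ball (continuous_const.mul ((hvi i).continuous.pow 6)) a ρ
      · simp only [nsq, Fin.sum_univ_three]
        have h0 := sq_nonneg (v x 0)
        have h1 := sq_nonneg (v x 1)
        have h2 := sq_nonneg (v x 2)
        have key : ∀ p q r : ℝ, 0 ≤ p → 0 ≤ q → 0 ≤ r →
            (p + q + r) ^ 3 ≤ 9 * p ^ 3 + 9 * q ^ 3 + 9 * r ^ 3 := by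
          intro p q r hp hq hr
          nlinarith [mul_nonneg (add_nonneg hp hq) (sq_nonneg (p - q)),
            mul_nonneg (add_nonneg hp hr) (sq_nonneg (p - r)),
            mul_nonneg (add_nonneg hq hr) (sq_nonneg (q - r)),
            mul_nonneg hp (sq_nonneg (q - r)), mul_nonneg hq (sq_nonneg (p - r)),
            mul_nonneg hr (sq_nonneg (p - q)), mul_nonneg hp (sq_nonneg (p - q)),
            mul_nonneg hp (sq_nonneg (p - r)), mul_nonneg hq (sq_nonneg (q - p)),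
            mul_nonneg hq (sq_nonneg (q - r)), mul_nonneg hr (sq_nonneg (r - p)),
            mul_nonneg hr (sq_nonneg (r - q))]
        have h3 := key _ _ _ h0 h1 h2
        refine h3.trans (le_of_eq ?_)
        ring
    · intro i _
      exact int_ball (continuous_const.mul ((hvi i).continuous.pow 6)) a ρ
  rw [hsum]
  have hIle : ∀ i, I i ≤ ∑ i, I i := fun i =>
    Finset.single_le_sum (fun j _ => hI0 j) (Finset.mem_univ i)
  have hS0 : 0 ≤ ∑ i, I i := Finset.sum_nonneg fun i _ => hI0 i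
  calc L6 a ρ v ≤ ∑ i, 9 * ∫ x in ball a ρ, v x i ^ 6 := hL
    _ ≤ ∑ i : Fin 3, 9 * (K * (∑ i, I i) ^ 3) := by
        refine Finset.sum_le_sum fun i _ => ?_
        have h1 := hS (fun y => v y i) (hvi i) a ρ hρ
        have h2 : (I i) ^ 3 ≤ (∑ i, I i) ^ 3 := pow_le_pow_left₀ (hI0 i) (hIle i) 3
        have h3 : K * (I i) ^ 3 ≤ K * (∑ i, I i) ^ 3 := mul_le_mul_of_nonneg_left h2 hK
        have h4 : ∫ x in ball a ρ, v x i ^ 6 ≤ K * (I i) ^ 3 := h1
        linarith
    _ = 27 * K * (∑ i, I i) ^ 3 := by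
        rw [Finset.sum_const, Finset.card_univ, Fintype.card_fin]
        ring
    _ ≤ (27 * K + 1) * (∑ i, I i) ^ 3 := by
        have : 0 ≤ (∑ i, I i) ^ 3 := by positivity
        linarith

end Pool.Agent.W440.MD
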